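import Pool.Agent.Helper64.XI.Nat

/-!
# Complete intersections in `P^(m+1) × P^(m+1)`: identities
-/

set_option autoImplicit false

namespace Pool.Agent.Helper64.XI

open Pool.Agent.Helper28.HN Finset

variable {m : ℕ} {S : Type*} [CommRing S] (c : Ix m → S)

/-! ## Bilinearity -/

theorem lf_comb_r (r : Fin m) (x : I m → S) (a b : S) (y y' : I m → S) :
    lf c r x (fun i => a * y i + b * y' i) = a * lf c r x y + b * lf c r x y' := by
  simp only [lf, mul_sum, ← sum_add_distrib]
  exact sum_congr rfl fun i _ => sum_congr rfl fun j _ => by ring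

theorem lf_comb_l (r : Fin m) (a b : S) (x x' y : I m → S) :
    lf c r (fun i => a * x i + b * x' i) y = a * lf c r x y + b * lf c r x' y := by
  simp only [lf, mul_sum, ← sum_add_distrib]
  exact sum_congr rfl fun i _ => sum_congr rfl fun j _ => by ring

theorem lf_smul_r (r : Fin m) (x : I m → S) (a : S) (y : I m → S) :
    lf c r x (fun i => a * y i) = a * lf c r x y := by
  simp only [lf, mul_sum]
  exact sum_congr rfl fun i _ => sum_congr rfl fun j _ => by ring

theorem lf_smul_l (r : Fin m) (a : S) (x y : I m → S) :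
    lf c r (fun i => a * x i) y = a * lf c r x y := by
  simp only [lf, mul_sum]
  exact sum_congr rfl fun i _ => sum_congr rfl fun j _ => by ring

theorem qf_comb_1 (a b : S) (x x' w y y' : I m → S) :
    qf c (fun i => a * x i + b * x' i) w y y' = a * qf c x w y y' + b * qf c x' w y y' := by
  simp only [qf, mul_sum, ← sum_add_distrib]
  exact sum_congr rfl fun i _ => sum_congr rfl fun j _ => sum_congr rfl fun k _ =>
    sum_congr rfl fun l _ => by ring

theorem qf_comb_3 (a b : S) (x x' y z y' : I m → S) :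
    qf c x x' (fun i => a * y i + b * z i) y' = a * qf c x x' y y' + b * qf c x x' z y' := by
  simp only [qf, mul_sum, ← sum_add_distrib]
  exact sum_congr rfl fun i _ => sum_congr rfl fun j _ => sum_congr rfl fun k _ =>
    sum_congr rfl fun l _ => by ring

theorem pq_symm_1 (i j k l : I m) : pq c i j k l = pq c j i k l := by
  simp only [pq]; ring

theorem pq_symm_2 (i j k l : I m) : pq c i j k l = pq c i j l k := by
  simp only [pq]; ring

theorem qf_symm_1 (x x' y y' : I m → S) : qf c x x' y y' = qf c x' x y y' := by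
  simp only [qf]
  rw [sum_comm]
  exact sum_congr rfl fun i _ => sum_congr rfl fun j _ => sum_congr rfl fun k _ =>
    sum_congr rfl fun l _ => by rw [pq_symm_1]; ring

theorem qf_symm_2 (x x' y y' : I m → S) : qf c x x' y y' = qf c x x' y' y := by
  simp only [qf]
  refine sum_congr rfl fun i _ => sum_congr rfl fun j _ => ?_
  rw [sum_comm]
  exact sum_congr rfl fun k _ => sum_congr rfl fun l _ => by rw [pq_symm_2]; ring

theorem qf_comb_2 (a b : S) (w x x' y y' : I m → S) :
    qf c w (fun i => a * x i + b * x' i) y y' = a * qf c w x y y' + b * qf c w x' y y' := by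
  rw [qf_symm_1, qf_comb_1, qf_symm_1 c x, qf_symm_1 c x']

theorem qf_comb_4 (a b : S) (x x' y' y z : I m → S) :
    qf c x x' y' (fun i => a * y i + b * z i) = a * qf c x x' y' y + b * qf c x x' y' z := by
  rw [qf_symm_2, qf_comb_3, qf_symm_2 c x x' y, qf_symm_2 c x x' z]

theorem qf_smul_1 (a : S) (x w y y' : I m → S) :
    qf c (fun i => a * x i) w y y' = a * qf c x w y y' := by
  have := qf_comb_1 c a 0 x x w y y'
  simpa using this

theorem qf_smul_2 (a : S) (x w y y' : I m → S) :
    qf c w (fun i => a * x i) y y' = a * qf c w x y y' := by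
  have := qf_comb_2 c a 0 w x x y y'
  simpa using this

theorem qf_smul_3 (a : S) (x x' y y' : I m → S) :
    qf c x x' (fun i => a * y i) y' = a * qf c x x' y y' := by
  have := qf_comb_3 c a 0 x x' y y y'
  simpa using this

theorem qf_smul_4 (a : S) (x x' y y' : I m → S) :
    qf c x x' y' (fun i => a * y i) = a * qf c x x' y' y := by
  have := qf_comb_4 c a 0 x x' y' y y
  simpa using this

/-! ## The lines -/

theorem lf_eq_sum_r (r : Fin m) (x y : I m → S) :
    lf c r x y = ∑ j, lf c r x (Pi.single j 1) * y j := by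
  have h : ∀ j, lf c r x (Pi.single j 1) = ∑ i, c (.inl (r, i, j)) * x i := by
    intro j
    simp only [lf]
    refine sum_congr rfl fun i _ => ?_
    rw [sum_eq_single j (fun b _ hb => by simp [hb]) (fun h => absurd (mem_univ _) h)]
    simp
  rw [sum_congr rfl fun j _ => by rw [h j]]
  simp only [lf, sum_mul]
  rw [sum_comm]

theorem lf_eq_sum_l (r : Fin m) (x y : I m → S) :
    lf c r x y = ∑ i, lf c r (Pi.single i 1) y * x i := by
  have h : ∀ i, lf c r (Pi.single i 1) y = ∑ j, c (.inl (r, i, j)) * y j := by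
    intro i
    simp only [lf]
    rw [sum_eq_single i (fun b _ hb => by simp [hb]) (fun h => absurd (mem_univ _) h)]
    simp
  rw [sum_congr rfl fun i _ => by rw [h i]]
  simp only [lf, sum_mul]
  exact sum_congr rfl fun i _ => sum_congr rfl fun j _ => by ring

/-- The equations of the line over `x`, in coordinates. -/
theorem lf_split (r : Fin m) (x y : I m → S) :
    lf c r x y = lf c r x (Pi.single 0 1) * y 0 + lf c r x (Pi.single 1 1) * y 1 +
      (Mx c x).mulVec (fun b => y b.succ.succ) r := by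
  rw [lf_eq_sum_r, Fin.sum_univ_succ, Fin.sum_univ_succ]
  exact (add_assoc (G := S) _ _ _).symm

/-- The equations of the line over `y`, in coordinates. -/
theorem lf_split_l (r : Fin m) (x y : I m → S) :
    lf c r x y = lf c r (Pi.single 0 1) y * x 0 + ((Nx c y).mulVec (fun b => x b.castSucc.succ) r +
      lf c r (Pi.single (Fin.last (m + 1)) 1) y * x (Fin.last (m + 1))) := by
  rw [lf_eq_sum_l, Fin.sum_univ_succ, Fin.sum_univ_castSucc, Fin.succ_last]
  rfl

theorem mulVec_adj (M : Matrix (Fin m) (Fin m) S) (v : Fin m → S) :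
    M.mulVec (M.adjugate.mulVec v) = M.det • v := by
  rw [Matrix.mulVec_mulVec, Matrix.mul_adjugate, Matrix.smul_mulVec, Matrix.one_mulVec]

theorem adj_mulVec (M : Matrix (Fin m) (Fin m) S) (v : Fin m → S) :
    M.adjugate.mulVec (M.mulVec v) = M.det • v := by
  rw [Matrix.mulVec_mulVec, Matrix.adjugate_mul, Matrix.smul_mulVec, Matrix.one_mulVec]

@[simp] theorem Y0_zero (x : I m → S) : Y0 c x 0 = (Mx c x).det := rfl

@[simp] theorem Y0_one (x : I m → S) : Y0 c x 1 = 0 := rfl

@[simp] theorem Y1_zero (x : I m → S) : Y1 c x 0 = 0 := rfl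

@[simp] theorem Y1_one (x : I m → S) : Y1 c x 1 = (Mx c x).det := rfl

theorem Y0_succ (x : I m → S) : (fun b : Fin m => Y0 c x b.succ.succ) =
    - ((Mx c x).adjugate.mulVec fun r => lf c r x (Pi.single 0 1)) := rfl

theorem Y1_succ (x : I m → S) : (fun b : Fin m => Y1 c x b.succ.succ) =
    - ((Mx c x).adjugate.mulVec fun r => lf c r x (Pi.single 1 1)) := rfl

@[simp] theorem yh_zero (x : I m → S) (z : S) : yh c x z 0 = (Mx c x).det := by
  simp [yh]

@[simp] theorem yh_one (x : I m → S) (z : S) : yh c x z 1 = z * (Mx c x).det := by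
  simp [yh]

theorem lf_Y0 (r : Fin m) (x : I m → S) : lf c r x (Y0 c x) = 0 := by
  rw [lf_split, Y0_succ, Matrix.mulVec_neg, mulVec_adj, Y0_zero, Y0_one]
  simp only [Pi.neg_apply, Pi.smul_apply, smul_eq_mul]
  ring

theorem lf_Y1 (r : Fin m) (x : I m → S) : lf c r x (Y1 c x) = 0 := by
  rw [lf_split, Y1_succ, Matrix.mulVec_neg, mulVec_adj, Y1_zero, Y1_one]
  simp only [Pi.neg_apply, Pi.smul_apply, smul_eq_mul]
  ring

theorem yh_eq (x : I m → S) (z : S) : yh c x z = fun i => 1 * Y0 c x i + z * Y1 c x i := by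
  funext i
  simp [yh]

theorem lf_yh (r : Fin m) (x : I m → S) (z : S) : lf c r x (yh c x z) = 0 := by
  rw [yh_eq, lf_comb_r, lf_Y0, lf_Y1]
  ring

theorem lf_xh (r : Fin m) (y : I m → S) : lf c r (xh c y) y = 0 := by
  rw [lf_split_l]
  have h0 : xh c y 0 = 0 := rfl
  have h1 : (fun b : Fin m => xh c y b.castSucc.succ) =
      - ((Nx c y).adjugate.mulVec fun r => lf c r (Pi.single (Fin.last (m + 1)) 1) y) := by
    funext b
    unfold xh vh
    rw [Fin.cons_succ, Fin.snoc_castSucc]
  have h2 : xh c y (Fin.last (m + 1)) = (Nx c y).det := by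
    rw [← Fin.succ_last]
    unfold xh vh
    rw [Fin.cons_succ, Fin.snoc_last]
  rw [h0, h1, h2, Matrix.mulVec_neg, mulVec_adj]
  simp only [Pi.neg_apply, Pi.smul_apply, smul_eq_mul]
  ring

/-- A point of the line over `x`. -/
theorem det_mul_eq (x y : I m → S) (z : S) (h : ∀ r, lf c r x y = 0) (hz : y 1 = z * y 0)
    (i : I m) : (Mx c x).det * y i = y 0 * yh c x z i := by
  have h1 : (Mx c x).mulVec (fun b => y b.succ.succ) =
      - (y 0 • ((fun r => lf c r x (Pi.single 0 1)) + z • fun r => lf c r x (Pi.single 1 1))) := by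
    funext r
    have := h r
    rw [lf_split, hz] at this
    simp only [Pi.neg_apply, Pi.smul_apply, Pi.add_apply, smul_eq_mul]
    linear_combination this
  have h2 := congrArg (Mx c x).adjugate.mulVec h1
  rw [adj_mulVec, Matrix.mulVec_neg, Matrix.mulVec_smul, Matrix.mulVec_add,
    Matrix.mulVec_smul] at h2
  refine Fin.cases ?_ (fun i => ?_) i
  · rw [yh_zero]; ring
  refine Fin.cases ?_ (fun i => ?_) i
  · change (Mx c x).det * y 1 = y 0 * yh c x z 1
    rw [yh_one, hz]
    ring
  · have h3 := congrFun h2 i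
    have h4 := congrFun (Y0_succ c x) i
    have h5 := congrFun (Y1_succ c x) i
    simp only [Pi.neg_apply, Pi.smul_apply, Pi.add_apply, smul_eq_mul] at h3 h4 h5
    simp only [yh, h4, h5]
    linear_combination h3

theorem Fh_eq (x : I m → S) (z : S) :
    Fh c x z = Ah c x * z ^ 2 + 2 * Bh c x * z + Ch c x := by
  simp only [Fh, Ah, Bh, Ch, yh_eq, qf_comb_3, qf_comb_4]
  rw [qf_symm_2 c x x (Y1 c x) (Y0 c x)]
  ring

/-- The form at a point of the line over `x`. -/
theorem sq_mul_eq (x y : I m → S) (z : S) (h : ∀ r, lf c r x y = 0) (hz : y 1 = z * y 0) :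
    (Mx c x).det ^ 2 * qf c x x y y = y 0 ^ 2 * Fh c x z := by
  have h1 : (fun i => (Mx c x).det * y i) = fun i => y 0 * yh c x z i := by
    funext i
    exact det_mul_eq c x y z h hz i
  have h2 : qf c x x (fun i => (Mx c x).det * y i) (fun i => (Mx c x).det * y i) =
      (Mx c x).det ^ 2 * qf c x x y y := by
    rw [qf_smul_3, qf_smul_4]; ring
  rw [← h2, h1, qf_smul_3, qf_smul_4, Fh]
  ring

/-! ## The involutions -/

theorem nx_eq (x y : I m → S) : nx c x y = fun i => qf c (xh c y) (xh c y) y y * x i +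
    (- (2 * qf c x (xh c y) y y)) * xh c y i := by
  funext i
  simp only [nx]
  ring

theorem ny_eq (x y : I m → S) : ny c x y = fun i => Ah c x * y i +
    (- (2 * qf c x x y (Y1 c x))) * Y1 c x i := by
  funext i
  simp only [ny]
  ring

theorem onX_nx {x y : I m → S} (h : OnX c x y) : OnX c (nx c x y) y := by
  refine ⟨fun r => ?_, ?_⟩
  · rw [nx_eq, lf_comb_l, lf_xh, h.1 r]
    ring
  · rw [nx_eq, qf_comb_1, qf_comb_2, qf_comb_2, h.2, qf_symm_1 c (xh c y) x]
    ring

theorem onX_ny {x y : I m → S} (h : OnX c x y) : OnX c x (ny c x y) := by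
  refine ⟨fun r => ?_, ?_⟩
  · rw [ny_eq, lf_comb_r, lf_Y1, h.1 r]
    ring
  · rw [ny_eq, qf_comb_3, qf_comb_4, qf_comb_4, h.2, qf_symm_2 c x x (Y1 c x) y]
    simp only [Ah]
    ring

theorem ny_yh (x : I m → S) (z w : S) (h : Ah c x * w = - (2 * Bh c x) - Ah c x * z) (i : I m) :
    ny c x (yh c x z) i = Ah c x * yh c x w i := by
  have h1 : qf c x x (yh c x z) (Y1 c x) = Bh c x + z * Ah c x := by
    rw [yh_eq, qf_comb_3]
    simp only [Ah, Bh]
    ring
  simp only [ny, h1, yh]
  linear_combination (- Y1 c x i) * h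

theorem nx_yh (x : I m → S) (z : S) (i : I m) :
    nx c x (yh c x z) i = kah c x z * x i - 2 * psh c x z * xh c (yh c x z) i := rfl

/-! ## Homogeneity -/

variable {c}

theorem det_smul' (M : Matrix (Fin m) (Fin m) S) (a : S) : (a • M).det = a ^ m * M.det := by
  rw [Matrix.det_smul, Fintype.card_fin]

theorem Mx_smul (a : S) (x : I m → S) : Mx c (fun i => a * x i) = a • Mx c x := by
  ext r b
  simp only [Mx, lf_smul_l, Matrix.smul_apply, smul_eq_mul]

theorem Nx_smul (a : S) (y : I m → S) : Nx c (fun i => a * y i) = a • Nx c y := by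
  ext r b
  simp only [Nx, lf_smul_r, Matrix.smul_apply, smul_eq_mul]

theorem adj_smul_mulVec (hm : 0 < m) (M : Matrix (Fin m) (Fin m) S) (a : S) (v : Fin m → S) :
    (a • M).adjugate.mulVec (a • v) = a ^ m • M.adjugate.mulVec v := by
  rw [Matrix.adjugate_smul, Fintype.card_fin, Matrix.smul_mulVec, Matrix.mulVec_smul, smul_smul,
    ← pow_succ]
  congr 2
  omega

theorem Y0_smul (hm : 0 < m) (a : S) (x : I m → S) (i : I m) :
    Y0 c (fun i => a * x i) i = a ^ m * Y0 c x i := by
  have h : (fun r => lf c r (fun i => a * x i) (Pi.single 0 1)) =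
      a • fun r => lf c r x (Pi.single 0 1) := by
    funext r; simp only [lf_smul_l, Pi.smul_apply, smul_eq_mul]
  unfold Y0
  rw [h, Mx_smul, det_smul', adj_smul_mulVec hm]
  refine Fin.cases ?_ (fun i => ?_) i
  · simp
  refine Fin.cases ?_ (fun i => ?_) i
  · simp
  · simp

theorem Y1_smul (hm : 0 < m) (a : S) (x : I m → S) (i : I m) :
    Y1 c (fun i => a * x i) i = a ^ m * Y1 c x i := by
  have h : (fun r => lf c r (fun i => a * x i) (Pi.single 1 1)) =
      a • fun r => lf c r x (Pi.single 1 1) := by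
    funext r; simp only [lf_smul_l, Pi.smul_apply, smul_eq_mul]
  unfold Y1
  rw [h, Mx_smul, det_smul', adj_smul_mulVec hm]
  refine Fin.cases ?_ (fun i => ?_) i
  · simp
  refine Fin.cases ?_ (fun i => ?_) i
  · simp
  · simp

theorem xh_smul (hm : 0 < m) (a : S) (y : I m → S) (i : I m) :
    xh c (fun i => a * y i) i = a ^ m * xh c y i := by
  have h : (fun r => lf c r (Pi.single (Fin.last (m + 1)) 1) (fun i => a * y i)) =
      a • fun r => lf c r (Pi.single (Fin.last (m + 1)) 1) y := by
    funext r; simp only [lf_smul_r, Pi.smul_apply, smul_eq_mul]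
  unfold xh vh
  rw [h, Nx_smul, det_smul', adj_smul_mulVec hm]
  refine Fin.cases ?_ (fun i => ?_) i
  · simp
  rw [Fin.cons_succ, Fin.cons_succ]
  refine Fin.lastCases ?_ (fun i => ?_) i
  · simp
  · simp

theorem Ah_smul (hm : 0 < m) (a : S) (x : I m → S) :
    Ah c (fun i => a * x i) = a ^ (2 * m + 2) * Ah c x := by
  have h : Y1 c (fun i => a * x i) = fun i => a ^ m * Y1 c x i := funext (Y1_smul hm a x)
  unfold Ah
  rw [h, qf_smul_1, qf_smul_2, qf_smul_3, qf_smul_4]
  ring

theorem ny_smul (hm : 0 < m) (a b : S) (x y : I m → S) (i : I m) :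
    ny c (fun i => a * x i) (fun i => b * y i) i = a ^ (2 * m + 2) * b * ny c x y i := by
  have h : Y1 c (fun i => a * x i) = fun i => a ^ m * Y1 c x i := funext (Y1_smul hm a x)
  unfold ny
  rw [h, Ah_smul hm, qf_smul_1, qf_smul_2, qf_smul_3, qf_smul_4]
  ring

theorem nx_smul (hm : 0 < m) (a b : S) (x y : I m → S) (i : I m) :
    nx c (fun i => a * x i) (fun i => b * y i) i = a * b ^ (2 * m + 2) * nx c x y i := by
  have h : xh c (fun i => b * y i) = fun i => b ^ m * xh c y i := funext (xh_smul hm b y)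
  unfold nx
  rw [h]
  simp only [qf_smul_1, qf_smul_2, qf_smul_3, qf_smul_4]
  ring

theorem onX_smul {x y : I m → S} (h : OnX c x y) (a b : S) :
    OnX c (fun i => a * x i) (fun i => b * y i) := by
  refine ⟨fun r => ?_, ?_⟩
  · rw [lf_smul_l, lf_smul_r, h.1 r]; ring
  · rw [qf_smul_1, qf_smul_2, qf_smul_3, qf_smul_4, h.2]; ring

end Pool.Agent.Helper64.XI
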