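import Pool.Agent.Helper64.XI.Mems
import Pool.Agent.Helper94.HN.Ref

/-!
# The dynamical data of a configuration
-/

set_option autoImplicit false

namespace Pool.Agent.Helper64.XI

open Pool.Agent.Helper28.HN Pool.Agent.Helper24.HN

/-- The roots are indexed by `Fin (m + 2)`: `y = 0`, `j = Fin.last (m + 1)`, `m = 1`, `l = 2`. -/
theorem exists_mems {p : ℕ} [Fact p.Prime] (hp : p ≠ 2) {m : ℕ} (hm : 4 ≤ m) (c : Ix m → ℤ_[p])
    (k : Un m → ℤ_[p]) (h : Cfg c k) (L : Loc p (m + 1))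
    (hA : ∀ x, L.A x = Ah c (aff x)) (hB : ∀ x, L.B x = 2 * Bh c (aff x))
    (hC : ∀ x, L.C x = Ch c (aff x)) (hxi : ∀ x z, L.xi x z = vh c (yh c (aff x) z))
    (hpsi : ∀ x z, L.psi x z = 2 * psh c (aff x) z) (hkap : ∀ x z, L.kap x z = kah c (aff x) z)
    (hsl : ∀ x z, L.sl x z z = 2 * (psP c (aff x)).derivative.eval z)
    (hd : ∀ x v, ∃ d, (∀ z, (Mx c (aff x)).det * L.dF x v z =
      qh c (aff x) (Fin.cons 0 v) z + 2 * d * Fh c (aff x) z) ∧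
      (Mx c (aff x)).det * L.dA x v = qa c (aff x) (Fin.cons 0 v) + 2 * d * Ah c (aff x)) :
    ∃ (R : Ref L (Fin (m + 2))) (M : Mems L R), R.u0 = (fun i => k (.inl i)) ∧
      R.z = (fun a => k (.inr a)) ∧ R.y = 0 ∧ R.j = Fin.last (m + 1) ∧ R.m = 1 ∧ R.l = 2 ∧
      (∀ N x z, M.Mem N x z → (Mx c (aff x)).det ≠ 0 → Rp c k (2 * N + 1) x z) ∧
      (∀ N x z, M.Mem' N x z → (Mx c (aff x)).det ≠ 0 → Rp c k (2 * N + 2) x z) := by
  obtain ⟨R, hu, hz, hy, hj, hmm, hl⟩ :=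
    Helper94.HN.exists_ref hp hm c k h L hA hB hC hxi hpsi hkap hsl hd
  obtain ⟨M, h1, h2⟩ := exists_mems' h L hA hB hC hxi hpsi hkap
    (fun x v => by
      obtain ⟨d, hd, -⟩ := hd x v
      exact ⟨d, hd⟩) R hu hz hy
  exact ⟨R, M, hu, hz, hy, hj, hmm, hl, h1, h2⟩

end Pool.Agent.Helper64.XI
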