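import Pool.Agent.Helper64.XI.Alg
import Pool.Agent.Helper28.HN.Cfg

/-!
# Complete intersections in `P^(m+1) × P^(m+1)`: the line over a point
-/

set_option autoImplicit false

namespace Pool.Agent.Helper64.XI

open Pool.Agent.Helper28.HN Finset

variable {m : ℕ} {S : Type*} [CommRing S] (c : Ix m → S) (x y ξ : I m → S) (z w α β : S)

/-- The vertical part of the derivative. -/
noncomputable def vp (y : I m → S) : I m → S :=
  Fin.cons 0 (Fin.cons 0 (- ((Mx c x).adjugate.mulVec fun r => lf c r ξ y)))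

theorem qh_def : qh c x ξ z = 2 * ((Mx c x).det * qf c x ξ (yh c x z) (yh c x z) +
    qf c x x (yh c x z) (vp c x ξ (yh c x z))) := rfl

theorem qa_def : qa c x ξ = 2 * ((Mx c x).det * qf c x ξ (Y1 c x) (Y1 c x) +
    qf c x x (Y1 c x) (vp c x ξ (Y1 c x))) := rfl

theorem vp_comb (a b : S) (y y' : I m → S) : vp c x ξ (fun i => a * y i + b * y' i) =
    fun i => a * vp c x ξ y i + b * vp c x ξ y' i := by
  have h : (fun r => lf c r ξ (fun i => a * y i + b * y' i)) =
      a • (fun r => lf c r ξ y) + b • fun r => lf c r ξ y' := by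
    funext r
    rw [lf_comb_r]
    simp
  unfold vp
  rw [h, Matrix.mulVec_add, Matrix.mulVec_smul, Matrix.mulVec_smul]
  funext i
  refine Fin.cases ?_ (fun i => ?_) i
  · simp
  refine Fin.cases ?_ (fun i => ?_) i
  · simp
  · simp only [Fin.cons_succ, Pi.neg_apply, Pi.add_apply, Pi.smul_apply, smul_eq_mul]
    ring

theorem qf_zero_4 (x x' y : I m → S) : qf c x x' y (fun _ => 0) = 0 := by
  have := qf_smul_4 c 0 x x' (fun _ => 0) y
  simpa using this

theorem qh_psh : qh c x (xh c (yh c x z)) z = 2 * (Mx c x).det * psh c x z := by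
  have h : vp c x (xh c (yh c x z)) (yh c x z) = fun _ => 0 := by
    have h1 : (fun r => lf c r (xh c (yh c x z)) (yh c x z)) = 0 := by
      funext r
      exact lf_xh c r _
    unfold vp
    rw [h1, Matrix.mulVec_zero, neg_zero]
    funext i
    refine Fin.cases ?_ (fun i => ?_) i
    · simp
    refine Fin.cases ?_ (fun i => ?_) i
    · simp
    · simp
  rw [qh_def, h, qf_zero_4, psh]
  ring

/-- For all `z`: `qh` is a quadratic polynomial in `z` with the leading coefficient `qa`. -/
theorem qh_eq : ∃ b e : S, ∀ z, qh c x ξ z = qa c x ξ * z ^ 2 + b * z + e := by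
  refine ⟨2 * ((Mx c x).det * (2 * qf c x ξ (Y0 c x) (Y1 c x)) +
    (qf c x x (Y1 c x) (vp c x ξ (Y0 c x)) + qf c x x (Y0 c x) (vp c x ξ (Y1 c x)))),
    2 * ((Mx c x).det * qf c x ξ (Y0 c x) (Y0 c x) + qf c x x (Y0 c x) (vp c x ξ (Y0 c x))),
    fun z => ?_⟩
  rw [qh_def, qa_def, yh_eq, vp_comb]
  simp only [qf_comb_3, qf_comb_4]
  rw [qf_symm_2 c x ξ (Y1 c x) (Y0 c x)]
  ring

theorem xh_zero : xh c y 0 = 0 := rfl

theorem det_y (h : ∀ r, lf c r x y = 0) (i : I m) :
    (Mx c x).det * y i = y 0 * Y0 c x i + y 1 * Y1 c x i := by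
  have h1 : (Mx c x).mulVec (fun b => y b.succ.succ) =
      - (y 0 • (fun r => lf c r x (Pi.single 0 1)) + y 1 • fun r => lf c r x (Pi.single 1 1)) := by
    funext r
    have := h r
    rw [lf_split] at this
    simp only [Pi.neg_apply, Pi.smul_apply, Pi.add_apply, smul_eq_mul]
    linear_combination this
  have h2 := congrArg (Mx c x).adjugate.mulVec h1
  rw [adj_mulVec, Matrix.mulVec_neg, Matrix.mulVec_add, Matrix.mulVec_smul,
    Matrix.mulVec_smul] at h2
  refine Fin.cases ?_ (fun i => ?_) i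
  · rw [Y0_zero, Y1_zero]; ring
  refine Fin.cases ?_ (fun i => ?_) i
  · change (Mx c x).det * y 1 = y 0 * Y0 c x 1 + y 1 * Y1 c x 1
    rw [Y0_one, Y1_one]
    ring
  · have h3 := congrFun h2 i
    have h4 := congrFun (Y0_succ c x) i
    have h5 := congrFun (Y1_succ c x) i
    simp only [Pi.neg_apply, Pi.smul_apply, Pi.add_apply, smul_eq_mul] at h3 h4 h5
    simp only [h4, h5]
    linear_combination h3

theorem det_x (h : ∀ r, lf c r ξ y = 0) (h0 : ξ 0 = 0) (i : I m) :
    (Nx c y).det * ξ i = ξ (Fin.last (m + 1)) * xh c y i := by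
  have h1 : (Nx c y).mulVec (fun b => ξ b.castSucc.succ) =
      - (ξ (Fin.last (m + 1)) • fun r => lf c r (Pi.single (Fin.last (m + 1)) 1) y) := by
    funext r
    have := h r
    rw [lf_split_l, h0] at this
    simp only [Pi.neg_apply, Pi.smul_apply, smul_eq_mul]
    linear_combination this
  have h2 := congrArg (Nx c y).adjugate.mulVec h1
  rw [adj_mulVec, Matrix.mulVec_neg, Matrix.mulVec_smul] at h2
  refine Fin.cases ?_ (fun i => ?_) i
  · rw [h0, xh_zero]; ring
  refine Fin.lastCases ?_ (fun i => ?_) i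
  · rw [Fin.succ_last]
    have h3 : xh c y (Fin.last (m + 1)) = (Nx c y).det := by
      rw [← Fin.succ_last]
      unfold xh vh
      rw [Fin.cons_succ, Fin.snoc_last]
    rw [h3]
    ring
  · have h3 := congrFun h2 i
    have h4 : xh c y i.castSucc.succ =
        - ((Nx c y).adjugate.mulVec fun r => lf c r (Pi.single (Fin.last (m + 1)) 1) y) i := by
      unfold xh vh
      rw [Fin.cons_succ, Fin.snoc_castSucc, Pi.neg_apply]
    simp only [Pi.neg_apply, Pi.smul_apply, smul_eq_mul] at h3
    rw [h4]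
    linear_combination h3

/-! ## Homogeneity, all `m` -/

theorem adj_smul' (M : Matrix (Fin m) (Fin m) S) (a : S) (v : Fin m → S) :
    (a • M).adjugate.mulVec (a • v) = a ^ m • M.adjugate.mulVec v := by
  rcases Nat.eq_zero_or_pos m with h | h
  · subst h
    funext i
    exact i.elim0
  · exact adj_smul_mulVec h M a v

theorem Y0_sm : Y0 c (fun i => α * x i) = fun i => α ^ m * Y0 c x i := by
  have h : (fun r => lf c r (fun i => α * x i) (Pi.single 0 1)) =
      α • fun r => lf c r x (Pi.single 0 1) := by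
    funext r; simp only [lf_smul_l, Pi.smul_apply, smul_eq_mul]
  unfold Y0
  rw [h, Mx_smul, det_smul', adj_smul']
  funext i
  refine Fin.cases ?_ (fun i => ?_) i
  · simp
  refine Fin.cases ?_ (fun i => ?_) i
  · simp
  · simp

theorem Y1_sm : Y1 c (fun i => α * x i) = fun i => α ^ m * Y1 c x i := by
  have h : (fun r => lf c r (fun i => α * x i) (Pi.single 1 1)) =
      α • fun r => lf c r x (Pi.single 1 1) := by
    funext r; simp only [lf_smul_l, Pi.smul_apply, smul_eq_mul]
  unfold Y1
  rw [h, Mx_smul, det_smul', adj_smul']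
  funext i
  refine Fin.cases ?_ (fun i => ?_) i
  · simp
  refine Fin.cases ?_ (fun i => ?_) i
  · simp
  · simp

theorem yh_sm : yh c (fun i => α * x i) z = fun i => α ^ m * yh c x z i := by
  funext i
  simp only [yh, Y0_sm, Y1_sm]
  ring

theorem xh_sm : xh c (fun i => β * y i) = fun i => β ^ m * xh c y i := by
  have h : (fun r => lf c r (Pi.single (Fin.last (m + 1)) 1) (fun i => β * y i)) =
      β • fun r => lf c r (Pi.single (Fin.last (m + 1)) 1) y := by
    funext r; simp only [lf_smul_r, Pi.smul_apply, smul_eq_mul]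
  unfold xh vh
  rw [h, Nx_smul, det_smul', adj_smul']
  funext i
  refine Fin.cases ?_ (fun i => ?_) i
  · simp
  rw [Fin.cons_succ, Fin.cons_succ]
  refine Fin.lastCases ?_ (fun i => ?_) i
  · simp
  · simp

theorem Ah_sm : Ah c (fun i => α * x i) = α ^ (2 * m + 2) * Ah c x := by
  unfold Ah
  rw [Y1_sm, qf_smul_1, qf_smul_2, qf_smul_3, qf_smul_4]
  ring

theorem ny_sm : ny c (fun i => α * x i) (fun i => β * y i) =
    fun i => α ^ (2 * m + 2) * β * ny c x y i := by
  funext i
  unfold ny
  rw [Y1_sm, Ah_sm, qf_smul_1, qf_smul_2, qf_smul_3, qf_smul_4]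
  ring

theorem nx_sm : nx c (fun i => α * x i) (fun i => β * y i) =
    fun i => α * β ^ (2 * m + 2) * nx c x y i := by
  funext i
  unfold nx
  rw [xh_sm]
  simp only [qf_smul_1, qf_smul_2, qf_smul_3, qf_smul_4]
  ring

theorem ny_yh' (h : Ah c x * w = - 2 * Bh c x - Ah c x * z) :
    ny c x (yh c x z) = fun i => Ah c x * yh c x w i := by
  funext i
  exact ny_yh c x z w (by linear_combination h) i

end Pool.Agent.Helper64.XI
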