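import Pool.Agent.Helper45.XN.Ball
import Pool.Agent.Helper24.HN.Defs

/-!
# Difference quotients and derivatives of polynomials over `Z_p`
-/

set_option autoImplicit false

namespace Pool.Agent.Helper64.XI

open Finset

/-- The difference quotient of a polynomial. -/
noncomputable def slP {R : Type*} [CommRing R] (P : Polynomial R) (x y : R) : R :=
  P.sum fun n a => a * ∑ i ∈ range n, x ^ i * y ^ (n - 1 - i)

theorem sub_eq_slP {R : Type*} [CommRing R] (P : Polynomial R) (x y : R) :
    P.eval x - P.eval y = (x - y) * slP P x y := by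
  rw [Polynomial.eval_eq_sum, Polynomial.eval_eq_sum, slP]
  simp only [Polynomial.sum_def]
  rw [← sum_sub_distrib, mul_sum]
  refine sum_congr rfl fun n _ => ?_
  rw [← mul_sub, ← (Commute.all x y).geom_sum₂_mul n]
  ring

theorem slP_self {R : Type*} [CommRing R] (P : Polynomial R) (x : R) :
    slP P x x = P.derivative.eval x := by
  rw [slP, Polynomial.derivative_eval]
  simp only [Polynomial.sum_def]
  refine sum_congr rfl fun n _ => ?_
  have h : ∀ i ∈ range n, x ^ i * x ^ (n - 1 - i) = x ^ (n - 1) := by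
    intro i hi
    rw [mem_range] at hi
    rw [← pow_add]
    congr 1
    omega
  rw [sum_congr rfl h, sum_const, card_range, nsmul_eq_mul]
  ring

theorem map_slP {R T : Type*} [CommRing R] [CommRing T] (f : R →+* T) (P : Polynomial R)
    (x y x' y' : R) (hx : f x = f x') (hy : f y = f y') : f (slP P x y) = f (slP P x' y') := by
  simp only [slP, Polynomial.sum_def, map_sum, map_mul, map_pow, hx, hy]

variable {p : ℕ} [Fact p.Prime] {n : ℕ}

open MvPolynomial Pool.Agent.Helper24.HN

/-- The derivative of a polynomial function. -/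
noncomputable def dP (P : MvPolynomial (Fin n) ℤ_[p]) (u : V p n) : V p n →ₗ[ℤ_[p]] ℤ_[p] :=
  ∑ i, eval u (pderiv i P) • LinearMap.proj i

theorem dP_apply (P : MvPolynomial (Fin n) ℤ_[p]) (u h : V p n) :
    dP P u h = ∑ i, eval u (pderiv i P) * h i := by
  simp [dP, LinearMap.sum_apply]

theorem dP_norm (P : MvPolynomial (Fin n) ℤ_[p]) (u h : V p n) :
    ‖eval (u + h) P - eval u P - dP P u h‖ ≤ ‖h‖ ^ 2 := by
  rw [dP_apply]
  exact Helper45.XN.norm_taylor_le P u h

theorem dP_lip (P : MvPolynomial (Fin n) ℤ_[p]) (u h v : V p n) :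
    ‖dP P (u + h) v - dP P u v‖ ≤ ‖h‖ * ‖v‖ := by
  rw [dP_apply, dP_apply]
  exact Helper45.XN.norm_deriv_sub_le P u h v

theorem dP_add (P Q : MvPolynomial (Fin n) ℤ_[p]) (u h : V p n) :
    dP (P + Q) u h = dP P u h + dP Q u h := by
  simp only [dP_apply, map_add, add_mul, sum_add_distrib]

theorem dP_mul (P Q : MvPolynomial (Fin n) ℤ_[p]) (u h : V p n) :
    dP (P * Q) u h = eval u P * dP Q u h + eval u Q * dP P u h := by
  simp only [dP_apply, Derivation.leibniz, map_add, smul_eq_mul, map_mul, mul_sum,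
    ← sum_add_distrib]
  exact sum_congr rfl fun i _ => by ring

theorem dP_C (a : ℤ_[p]) (u h : V p n) : dP (C a) u h = 0 := by
  simp [dP_apply]

theorem dP_X (i : Fin n) (u h : V p n) : dP (X i) u h = h i := by
  rw [dP_apply, sum_eq_single i (fun j _ hj => ?_) (fun h => absurd (mem_univ _) h)]
  · simp
  · rw [pderiv_X_of_ne (Ne.symm hj)]
    simp

/-- `dP` as an additive map. -/
noncomputable def dPh (u h : V p n) : MvPolynomial (Fin n) ℤ_[p] →+ ℤ_[p] where
  toFun P := dP P u h
  map_zero' := by rw [← C_0, dP_C]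
  map_add' P Q := dP_add P Q u h

@[simp] theorem dPh_apply (u h : V p n) (P : MvPolynomial (Fin n) ℤ_[p]) :
    dPh u h P = dP P u h := rfl

/-- The point with two more coordinates. -/
def pt (u : V p n) (z w : ℤ_[p]) : Fin n ⊕ Fin 2 → ℤ_[p] := Sum.elim u ![z, w]

theorem norm_pt_sub_le (u u' : V p n) (z z' w w' : ℤ_[p]) :
    ‖pt u z w - pt u' z' w'‖ ≤ max ‖u - u'‖ (max ‖z - z'‖ ‖w - w'‖) := by
  rw [pi_norm_le_iff_of_nonneg (le_max_of_le_left (norm_nonneg _))]
  rintro (i | i)
  · exact le_max_of_le_left (norm_le_pi_norm (u - u') i)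
  · refine le_max_of_le_right ?_
    fin_cases i
    · exact le_max_left _ _
    · exact le_max_right _ _

/-- Lipschitz bound for polynomial functions of `(u, z, w)`. -/
theorem lip3 (P : MvPolynomial (Fin n ⊕ Fin 2) ℤ_[p]) (u u' : V p n) (z z' w w' : ℤ_[p]) :
    ‖eval (pt u z w) P - eval (pt u' z' w') P‖ ≤ max ‖u - u'‖ (max ‖z - z'‖ ‖w - w'‖) :=
  (Helper45.XN.norm_eval_sub_le P _ _).trans (norm_pt_sub_le _ _ _ _ _ _)

/-- Lipschitz bound for polynomial functions of `(u, z)`. -/
theorem lip2 (P : MvPolynomial (Fin n ⊕ Fin 2) ℤ_[p]) (u u' : V p n) (z z' : ℤ_[p]) :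
    ‖eval (pt u z 0) P - eval (pt u' z' 0) P‖ ≤ max ‖u - u'‖ ‖z - z'‖ := by
  refine (lip3 P u u' z z' 0 0).trans ?_
  rw [sub_self, norm_zero]
  exact max_le_max le_rfl (max_le le_rfl (norm_nonneg _))

end Pool.Agent.Helper64.XI
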