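import Pool.Agent.Helper28.HN.Defs

/-!
# Complete intersections in `P^(m+1) × P^(m+1)`: compatibility with ring homomorphisms
-/

set_option autoImplicit false

namespace Pool.Agent.Helper64.XI

open Pool.Agent.Helper28.HN

variable {m : ℕ} {S T : Type*} [CommRing S] [CommRing T] (f : S →+* T)

theorem map_single (j : I m) (a : S) :
    (fun i => f ((Pi.single j a : I m → S) i)) = Pi.single j (f a) := by
  funext i
  by_cases h : i = j
  · subst h; simp
  · simp [h]

theorem map_cons {n : ℕ} (a : S) (v : Fin n → S) :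
    (fun i => f ((Fin.cons a v : Fin (n + 1) → S) i)) =
      (Fin.cons (f a) (fun i => f (v i)) : Fin (n + 1) → T) := by
  funext i
  refine Fin.cases ?_ (fun i => ?_) i <;> simp

theorem map_lf (c : Ix m → S) (r : Fin m) (x y : I m → S) :
    f (lf c r x y) = lf (fun e => f (c e)) r (fun i => f (x i)) (fun i => f (y i)) := by
  simp only [lf, map_sum, map_mul]

theorem map_pq (c : Ix m → S) (i j k l : I m) :
    f (pq c i j k l) = pq (fun e => f (c e)) i j k l := by
  simp only [pq, map_add]

theorem map_qf (c : Ix m → S) (x x' y y' : I m → S) :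
    f (qf c x x' y y') = qf (fun e => f (c e)) (fun i => f (x i)) (fun i => f (x' i))
      (fun i => f (y i)) (fun i => f (y' i)) := by
  simp only [qf, map_sum, map_mul, map_pq]

theorem map_Mx (c : Ix m → S) (x : I m → S) :
    f.mapMatrix (Mx c x) = Mx (fun e => f (c e)) (fun i => f (x i)) := by
  ext r b
  simp only [RingHom.mapMatrix_apply, Matrix.map_apply, Mx, map_lf, map_single, map_one]

theorem map_Nx (c : Ix m → S) (y : I m → S) :
    f.mapMatrix (Nx c y) = Nx (fun e => f (c e)) (fun i => f (y i)) := by
  ext r b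
  simp only [RingHom.mapMatrix_apply, Matrix.map_apply, Nx, map_lf, map_single, map_one]

theorem map_adj (M : Matrix (Fin m) (Fin m) S) (v : Fin m → S) (i : Fin m) :
    f (M.adjugate.mulVec v i) = (f.mapMatrix M).adjugate.mulVec (fun i => f (v i)) i := by
  rw [RingHom.map_mulVec, ← RingHom.map_adjugate]
  rfl

theorem map_Y0 (c : Ix m → S) (x : I m → S) :
    (fun i => f (Y0 c x i)) = Y0 (fun e => f (c e)) (fun i => f (x i)) := by
  unfold Y0
  rw [map_cons, map_cons, RingHom.map_det, map_Mx, map_zero]
  simp only [Pi.neg_apply, map_neg, map_adj, map_Mx, map_lf, map_single, map_one]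
  rfl

theorem map_Y1 (c : Ix m → S) (x : I m → S) :
    (fun i => f (Y1 c x i)) = Y1 (fun e => f (c e)) (fun i => f (x i)) := by
  unfold Y1
  rw [map_cons, map_cons, RingHom.map_det, map_Mx, map_zero]
  simp only [Pi.neg_apply, map_neg, map_adj, map_Mx, map_lf, map_single, map_one]
  rfl

theorem map_yh (c : Ix m → S) (x : I m → S) (z : S) :
    (fun i => f (yh c x z i)) = yh (fun e => f (c e)) (fun i => f (x i)) (f z) := by
  funext i
  simp only [yh, map_add, map_mul]
  rw [← map_Y0, ← map_Y1]

theorem map_vh (c : Ix m → S) (y : I m → S) :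
    (fun i => f (vh c y i)) = vh (fun e => f (c e)) (fun i => f (y i)) := by
  unfold vh
  funext i
  refine Fin.lastCases ?_ (fun i => ?_) i
  · simp only [Fin.snoc_last]
    rw [RingHom.map_det, map_Nx]
  · simp only [Fin.snoc_castSucc, Pi.neg_apply, map_neg, map_adj, map_Nx, map_lf, map_single,
      map_one]

theorem map_xh (c : Ix m → S) (y : I m → S) :
    (fun i => f (xh c y i)) = xh (fun e => f (c e)) (fun i => f (y i)) := by
  unfold xh
  rw [map_cons, map_zero, map_vh]

theorem map_nx (c : Ix m → S) (x y : I m → S) :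
    (fun i => f (nx c x y i)) =
      nx (fun e => f (c e)) (fun i => f (x i)) (fun i => f (y i)) := by
  funext i
  simp only [nx, map_sub, map_mul, map_qf, map_ofNat]
  rw [← map_xh]

theorem map_Ah (c : Ix m → S) (x : I m → S) :
    f (Ah c x) = Ah (fun e => f (c e)) (fun i => f (x i)) := by
  simp only [Ah, map_qf, map_Y1]

theorem map_Bh (c : Ix m → S) (x : I m → S) :
    f (Bh c x) = Bh (fun e => f (c e)) (fun i => f (x i)) := by
  simp only [Bh, map_qf, map_Y0, map_Y1]

theorem map_Ch (c : Ix m → S) (x : I m → S) :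
    f (Ch c x) = Ch (fun e => f (c e)) (fun i => f (x i)) := by
  simp only [Ch, map_qf, map_Y0]

theorem map_Fh (c : Ix m → S) (x : I m → S) (z : S) :
    f (Fh c x z) = Fh (fun e => f (c e)) (fun i => f (x i)) (f z) := by
  simp only [Fh, map_qf, map_yh]

theorem map_ny (c : Ix m → S) (x y : I m → S) :
    (fun i => f (ny c x y i)) =
      ny (fun e => f (c e)) (fun i => f (x i)) (fun i => f (y i)) := by
  funext i
  simp only [ny, map_sub, map_mul, map_qf, map_ofNat, map_Ah, map_Y1]
  rw [← map_Y1]

theorem map_psh (c : Ix m → S) (x : I m → S) (z : S) :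
    f (psh c x z) = psh (fun e => f (c e)) (fun i => f (x i)) (f z) := by
  simp only [psh, map_qf, map_yh, map_xh]

theorem map_kah (c : Ix m → S) (x : I m → S) (z : S) :
    f (kah c x z) = kah (fun e => f (c e)) (fun i => f (x i)) (f z) := by
  simp only [kah, map_qf, map_yh, map_xh]

theorem map_det_Mx (c : Ix m → S) (x : I m → S) :
    f (Mx c x).det = (Mx (fun e => f (c e)) (fun i => f (x i))).det := by
  rw [RingHom.map_det, map_Mx]

theorem map_det_Nx (c : Ix m → S) (y : I m → S) :
    f (Nx c y).det = (Nx (fun e => f (c e)) (fun i => f (y i))).det := by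
  rw [RingHom.map_det, map_Nx]

theorem map_qh (c : Ix m → S) (x ξ : I m → S) (z : S) :
    f (qh c x ξ z) = qh (fun e => f (c e)) (fun i => f (x i)) (fun i => f (ξ i)) (f z) := by
  have h : (fun i => f ((Fin.cons 0 (Fin.cons 0
      (- ((Mx c x).adjugate.mulVec fun r => lf c r ξ (yh c x z)))) : I m → S) i)) =
      Fin.cons 0 (Fin.cons 0 (- ((Mx (fun e => f (c e)) (fun i => f (x i))).adjugate.mulVec
        fun r => lf (fun e => f (c e)) r (fun i => f (ξ i))
          (yh (fun e => f (c e)) (fun i => f (x i)) (f z))))) := by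
    rw [map_cons, map_cons, map_zero]
    simp only [Pi.neg_apply, map_neg, map_adj, map_Mx, map_lf, map_yh]
    rfl
  simp only [qh, map_mul, map_add, map_qf, map_ofNat, map_det_Mx, map_yh]
  rw [h]

theorem map_psP (c : Ix m → S) (x : I m → S) :
    (psP c x).map f = psP (fun e => f (c e)) (fun i => f (x i)) := by
  have h := map_psh (Polynomial.mapRingHom f) (fun e => Polynomial.C (c e))
    (fun i => Polynomial.C (x i)) Polynomial.X
  simp only [Polynomial.coe_mapRingHom, Polynomial.map_C, Polynomial.map_X] at h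
  exact h

theorem eval_psP (c : Ix m → S) (x : I m → S) (z : S) : (psP c x).eval z = psh c x z := by
  have h := map_psh (Polynomial.evalRingHom z) (fun e => Polynomial.C (c e))
    (fun i => Polynomial.C (x i)) Polynomial.X
  simp only [Polynomial.coe_evalRingHom, Polynomial.eval_C, Polynomial.eval_X] at h
  exact h

theorem map_aff (u : Fin (m + 1) → S) :
    (fun i => f (aff u i)) = aff fun i => f (u i) := by
  unfold aff
  rw [map_cons, map_one]

theorem map_xz (c : Ix m → S) (u : Fin (m + 1) → S) (z : S) :
    (fun i => f (xz c u z i)) = xz (fun e => f (c e)) (fun i => f (u i)) (f z) := by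
  unfold xz
  rw [map_xh, map_yh, map_aff]

theorem map_Eqn (c : Ix m → S) (k : Un m → S) (e : En m) :
    f (Eqn c k e) = Eqn (fun e => f (c e)) (fun i => f (k i)) e := by
  rcases e with a | i | i
  · simp only [Eqn, map_psh, map_aff]
  · fin_cases i
    · simp only [Eqn, map_kah, map_aff]
    · simp only [Eqn, map_Fh, map_aff]
    · simp only [Eqn, map_Ah, map_aff]
    · simp only [Eqn, map_Bh, map_aff]
    · simp only [Eqn, map_qh, map_aff, map_xz]
  · simp only [Eqn]

end Pool.Agent.Helper64.XI
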